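import Pool.Agent.Q208.SP.Main

set_option autoImplicit false

/-!
# Dynamic optimality of splay trees: additive terms and loops

`Tr`, `keys`, `IsBST`, `dep`, `splay`, `costSplay` are those of `Pool.Agent.H581R2.SplayDef`; `runS T X`
is the tree after splaying the requests `X`; `Exec T X d` (`Pool.Agent.TH49.Spl.Defs`): there is an
execution of cost `d` for `(X, T)`; `ExT T X d T'` (`Pool.Agent.Q208.SP.Ex`): there is one which ends
with the tree `T'`.

`rep Y N` is `Y` repeated `N` times.  The following are equivalent:
(0) the dynamic optimality conjecture (Q1), without additive term;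
(1) for some constant `c` and SOME function `g` of the number of keys, whatever its growth, splaying
costs at most `c OPT + g (n)`;
(2) the weakest asymptotic form: for some `c`, for all trees `T` and requests `Y` such that splaying `Y`
turns `T` into itself, `N cost (Y) ≤ c OPT (Y^N) + g (T)` for infinitely many `N`, where the additive
term may depend on `T` in any way (periodic sequences only);
(3) for some `c`, for all requests `Y` and trees `T` such that splaying `Y` turns `T` into itself,
splaying costs at most `c` times every execution for `Y` which starts and ends with `T`.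

Proof.  Every splay tree with at least four keys can be turned into every other one by requests of cost
at most `96 n` (rotations at the root and at its right child connect all trees, and each of them is
simulated by at most four splays of nodes at depth at most three).  Closing up sequences costs
`O(n)`.  The term `O(n)` is absorbed as follows: every execution has cost at least half of the
number of nodes on the initial search paths of the requested keys; splaying touches no other node,
and the untouched subtrees may be replaced by single nodes, which does not change the cost of splaying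
and does not increase OPT (contraction of intervals of keys maps rotations to rotations or to the
identity).
-/

namespace Pool.Agent.Results.MP_c42954_lc.AdditiveTerm

open Pool.Agent.H581R2.Splay Pool.Agent.TH49.Spl Pool.Agent.Q208.SP

theorem result :
    (∀ (c : ℝ) (g : ℕ → ℝ), 0 ≤ c →
      (∀ (T : Tr) (X : List ℕ), IsBST T → (∀ x ∈ X, x ∈ keys T) → ∀ d : ℕ, Exec T X d →
        (costSplay T X : ℝ) ≤ c * d + g (keys T).length) →
      ∀ (T : Tr) (X : List ℕ), IsBST T → (∀ x ∈ X, x ∈ keys T) → ∀ d : ℕ, Exec T X d →
        (costSplay T X : ℝ) ≤ (991 * c + 4) * d) ∧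
    (∀ (c : ℝ) (g : Tr → ℝ), 0 ≤ c →
      (∀ (T : Tr) (Y : List ℕ), IsBST T → (∀ y ∈ Y, y ∈ keys T) → runS T Y = T → ∀ M : ℕ,
        ∃ N : ℕ, M ≤ N ∧ ∀ d : ℕ, Exec T (rep Y N) d →
          (N : ℝ) * (costSplay T Y : ℝ) ≤ c * d + g T) →
      ∀ (T : Tr) (X : List ℕ), IsBST T → (∀ x ∈ X, x ∈ keys T) → ∀ d : ℕ, Exec T X d →
        (costSplay T X : ℝ) ≤ (991 * c + 4) * d) ∧
    (∀ c : ℝ, 0 ≤ c →
      (∀ (T : Tr) (Y : List ℕ), IsBST T → (∀ y ∈ Y, y ∈ keys T) → runS T Y = T →
        ∀ d : ℕ, ExT T Y d T → (costSplay T Y : ℝ) ≤ c * d) →
      ∀ (T : Tr) (X : List ℕ), IsBST T → (∀ x ∈ X, x ∈ keys T) → ∀ d : ℕ, Exec T X d →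
        (costSplay T X : ℝ) ≤ (991 * c + 4) * d) ∧
    (∀ T T' : Tr, IsBST T → keys T' = keys T → 4 ≤ (keys T).length →
      ∃ W : List ℕ, (∀ x ∈ W, x ∈ keys T) ∧ runS T W = T' ∧
        costSplay T W ≤ 96 * (keys T).length) := by
  refine ⟨fun c g hc h T X hb hX d hd => ?_, fun c g hc h T X hb hX d hd => ?_,
    fun c hc h T X hb hX d hd => ?_, fun T T' hb hk h4 => ?_⟩
  · exact of_loops hc (loops_of_add h) hb hX hd
  · exact of_loops hc (loops_of_asymp h) hb hX hd
  · exact of_loops hc h hb hX hd
  · rw [size_keys] at h4 ⊢
    exact connect hb hk h4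

end Pool.Agent.Results.MP_c42954_lc.AdditiveTerm
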