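import Pool.Agent.Q331.SPL.WSA

set_option autoImplicit false

/-!
# Splaying is `O(log k)`-competitive for `k` distinct requested keys in a tree of any size

`Tr`, `keys`, `IsBST`, `dep`, `splay`, `costSplay` are those of `Pool.Agent.H581R2.SplayDef`. `Exec T X c`
(`Pool.Agent.TH49.Spl.Defs`): there is an execution of cost `c` for the requests `X` with initial tree
`T`; a request costs one plus the depth of the key, a rotation anywhere costs one. `opt T X`
(`Pool.Agent.Y395.SP.Stm`) is the least cost. `wsum [] X` is the sum of `log₂ (t + 1)` over the requests,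
`t` the number of distinct keys requested since the previous request of the key (since the start if there
is none). `touched T X` is the number of the nodes of `T` which are a requested key or have one below
them.

For every search tree `T` and all requests `X` of keys of `T`, with `m` requests and `k` distinct ones:

(1) the working set bound, without the additive term `n log n`: splaying costs at most
`14 m + 12 wsum + (6 + 16 log₂ k) touched`;

(2) `touched ≤ OPT(X, T)` (and of course `m ≤ OPT(X, T)`);

(3) so splaying costs at most `(20 + 28 log₂ k) OPT(X, T)`, with no additive term and whatever the number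
`n` of the keys of `T` is.

The proof uses the weights `1 / (t + 1)²` of Sleator and Tarjan for the requested keys and the weight `0`
for all the others; every subtree gets the additional weight `1 / (2 k²)`. The nodes below which nothing is
requested then have a constant potential, and the access lemma survives with other constants.
-/

namespace Pool.Agent.Results.MP_c42954_lc.DistinctKeys

open Pool.Agent.H581R2.Splay Pool.Agent.TH49.Spl Pool.Agent.Y395.SP

open Classical in
/-- the number of the nodes of the tree whose subtree contains one of the keys `X` -/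
noncomputable def touched : Tr → List ℕ → ℕ
  | Tr.nil, _ => 0
  | Tr.node a l r, X =>
      (if ∃ x ∈ X, x ∈ keys (Tr.node a l r) then 1 else 0) + touched l X + touched r X

theorem touched_eq (T : Tr) (X : List ℕ) : touched T X = Pool.Agent.TH22.SP.ancs X.toFinset T := by
  induction T with
  | nil => rfl
  | node a l r ihl ihr =>
    have : (∃ x ∈ X, x ∈ keys (Tr.node a l r)) ↔
        Pool.Agent.TH22.SP.Meets X.toFinset (Tr.node a l r) := by
      unfold Pool.Agent.TH22.SP.Meets
      constructor
      · rintro ⟨x, h1, h2⟩
        exact ⟨x, h2, List.mem_toFinset.2 h1⟩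
      · rintro ⟨x, h1, h2⟩
        exact ⟨x, List.mem_toFinset.1 h2, h1⟩
    by_cases hm : Pool.Agent.TH22.SP.Meets X.toFinset (Tr.node a l r)
    · rw [Pool.Agent.TH22.SP.ancs_of_meets hm]
      simp only [touched]
      rw [if_pos (this.2 hm), ihl, ihr]
    · simp only [touched, Pool.Agent.TH22.SP.ancs]
      rw [if_neg (fun h => hm (this.1 h)), if_neg hm, ihl, ihr]

open Pool.Agent.TH22.SP in
/-- the path to one key -/
theorem ancs_single (x : ℕ) (T : Tr) (hb : IsBST T) : ancs {x} T ≤ dep x T + 1 := by
  induction T with
  | nil => simp [ancs]
  | node a l r ihl ihr =>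
    simp only [IsBST, keys] at hb
    rw [List.pairwise_append, List.pairwise_cons] at hb
    obtain ⟨hl, ⟨har, hr⟩, hlr⟩ := hb
    have h0 := ancs_le {x} a l r
    by_cases hxa : x = a
    · have e1 : ancs {x} l = 0 := ancs_not_meets (by
        rintro ⟨k, hk, hk2⟩
        rw [Finset.mem_singleton] at hk2
        have := hlr k hk a (by simp)
        omega)
      have e2 : ancs {x} r = 0 := ancs_not_meets (by
        rintro ⟨k, hk, hk2⟩
        rw [Finset.mem_singleton] at hk2
        have := har k hk
        omega)
      omega
    · by_cases hlt : x < a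
      · have e2 : ancs {x} r = 0 := ancs_not_meets (by
          rintro ⟨k, hk, hk2⟩
          rw [Finset.mem_singleton] at hk2
          have := har k hk
          omega)
        have e3 : dep x (Tr.node a l r) = dep x l + 1 := by
          simp only [dep, if_neg hxa, if_pos hlt]
        have := ihl hl
        omega
      · have e2 : ancs {x} l = 0 := ancs_not_meets (by
          rintro ⟨k, hk, hk2⟩
          rw [Finset.mem_singleton] at hk2
          have := hlr k hk a (by simp)
          omega)
        have e3 : dep x (Tr.node a l r) = dep x r + 1 := by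
          simp only [dep, if_neg hxa, if_neg hlt]
        have := ihr hr
        omega

open Pool.Agent.TH22.SP in
theorem ancs_insert (x : ℕ) (E : Finset ℕ) (T : Tr) : ancs (insert x E) T ≤ ancs {x} T + ancs E T := by
  induction T with
  | nil => simp [ancs]
  | node a l r ihl ihr =>
    have h : Meets (insert x E) (Tr.node a l r) → Meets {x} (Tr.node a l r) ∨ Meets E (Tr.node a l r) := by
      rintro ⟨k, hk, hk2⟩
      rcases Finset.mem_insert.1 hk2 with rfl | h2
      · exact Or.inl ⟨k, hk, by simp⟩
      · exact Or.inr ⟨k, hk, h2⟩
    by_cases h1 : Meets (insert x E) (Tr.node a l r)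
    · rw [ancs_of_meets h1]
      rcases h h1 with h2 | h2
      · rw [ancs_of_meets h2]
        have := le_ancs E a l r
        omega
      · rw [ancs_of_meets h2]
        have := le_ancs {x} a l r
        omega
    · rw [ancs_not_meets h1]
      omega

theorem rot_keys {T T' : Tr} {s : ℕ} (h : Rot T T' s) : keys T' = keys T := by
  induction h with
  | right a b A B C => simp [keys]
  | left a b A B C => simp [keys]
  | inl a L L' R s _ ih => simp only [keys, ih]
  | inr a L R R' s _ ih => simp only [keys, ih]

theorem rotN_keys {e : ℕ} {T T' : Tr} (h : RotN e T T') : keys T' = keys T := by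
  induction h with
  | refl T => rfl
  | step e s T T' T'' hr _ ih => rw [ih, rot_keys hr]

open Pool.Agent.TH22.SP in
theorem ancs_rot {E : Finset ℕ} {T T' : Tr} {s : ℕ} (h : Rot T T' s) : ancs E T ≤ ancs E T' + 1 := by
  induction h with
  | right a b A B C =>
    have h1 := ancs_le E a (Tr.node b A B) C
    have h2 := ancs_le E b A B
    have h3 := le_ancs E b A (Tr.node a B C)
    have h4 := le_ancs E a B C
    by_cases hm : Meets E (Tr.node a (Tr.node b A B) C)
    · have hm' : Meets E (Tr.node b A (Tr.node a B C)) := by
        obtain ⟨k, hk, hk2⟩ := hm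
        exact ⟨k, by simp only [keys, List.mem_append, List.mem_cons] at hk ⊢; tauto, hk2⟩
      have := ancs_of_meets hm'
      omega
    · have := ancs_not_meets hm
      omega
  | left a b A B C =>
    have h1 := ancs_le E b A (Tr.node a B C)
    have h2 := ancs_le E a B C
    have h3 := le_ancs E a (Tr.node b A B) C
    have h4 := le_ancs E b A B
    by_cases hm : Meets E (Tr.node b A (Tr.node a B C))
    · have hm' : Meets E (Tr.node a (Tr.node b A B) C) := by
        obtain ⟨k, hk, hk2⟩ := hm
        exact ⟨k, by simp only [keys, List.mem_append, List.mem_cons] at hk ⊢; tauto, hk2⟩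
      have := ancs_of_meets hm'
      omega
    · have := ancs_not_meets hm
      omega
  | inl a L L' R s hr ih =>
    have hk : keys L' = keys L := rot_keys hr
    have hk2 : keys (Tr.node a L R) = keys (Tr.node a L' R) := by simp only [keys, hk]
    by_cases hm : Meets E (Tr.node a L R)
    · have hm' := (meets_congr (E := E) hk2).1 hm
      rw [ancs_of_meets hm, ancs_of_meets hm']
      omega
    · rw [ancs_not_meets hm]
      omega
  | inr a L R R' s hr ih =>
    have hk : keys R' = keys R := rot_keys hr
    have hk2 : keys (Tr.node a L R) = keys (Tr.node a L R') := by simp only [keys, hk]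
    by_cases hm : Meets E (Tr.node a L R)
    · have hm' := (meets_congr (E := E) hk2).1 hm
      rw [ancs_of_meets hm, ancs_of_meets hm']
      omega
    · rw [ancs_not_meets hm]
      omega

open Pool.Agent.TH22.SP in
theorem ancs_rotN {E : Finset ℕ} {T T' : Tr} {e : ℕ} (h : RotN e T T') : ancs E T ≤ ancs E T' + e := by
  induction h with
  | refl T => omega
  | step e s T T' T'' hr _ ih =>
    have := ancs_rot (E := E) hr
    omega

open Pool.Agent.TH22.SP in
theorem ancs_exec {T : Tr} {X : List ℕ} {c : ℕ} (h : Exec T X c) (hb : IsBST T) :
    ancs X.toFinset T ≤ c := by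
  induction h with
  | nil T =>
    have : ancs (([] : List ℕ).toFinset) T = 0 := ancs_not_meets (by rintro ⟨k, _, h⟩; simp at h)
    omega
  | cons T T' x Y e c hr _ ih =>
    have hk := rotN_keys hr
    have h1 := ih (by unfold IsBST; rw [hk]; exact hb)
    have h2 := ancs_rotN (E := Y.toFinset) hr
    have h3 := ancs_insert x Y.toFinset T
    have h4 := ancs_single x T hb
    rw [List.toFinset_cons]
    omega

theorem result (T : Tr) (hT : IsBST T) (X : List ℕ) (hX : ∀ x ∈ X, x ∈ keys T) :
    ((costSplay T X : ℝ) ≤ 14 * X.length + 12 * wsum [] X +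
      (6 + 16 * Real.logb 2 X.toFinset.card) * touched T X) ∧
    touched T X ≤ opt T X ∧ X.length ≤ opt T X ∧
    (costSplay T X : ℝ) ≤ (20 + 28 * Real.logb 2 X.toFinset.card) * opt T X := by
  have h1 := Pool.Agent.Q331.SPL.main hT X hX
  have hex : opt T X ∈ {c : ℕ | Exec T X c} := Nat.sInf_mem (by
    have : ∀ (X : List ℕ) (T : Tr), ∃ c, Exec T X c := by
      intro X
      induction X with
      | nil => intro T; exact ⟨0, Exec.nil T⟩
      | cons x X ih =>
        intro T
        obtain ⟨c, hc⟩ := ih T
        exact ⟨_, Exec.cons T T x X 0 c (RotN.refl T) hc⟩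
    exact this X T)
  have h2 : touched T X ≤ opt T X := by
    rw [touched_eq]
    exact ancs_exec hex hT
  have h3 : X.length ≤ opt T X := by
    have : ∀ {T : Tr} {X : List ℕ} {c : ℕ}, Exec T X c → X.length ≤ c := by
      intro T X c h
      induction h with
      | nil T => simp
      | cons T T' x Y e c _ _ ih => simp only [List.length_cons]; omega
    exact this hex
  rw [← touched_eq] at h1
  refine ⟨h1, h2, h3, ?_⟩
  have h4 : wsum [] X ≤ X.length * Real.logb 2 X.toFinset.card :=
    Pool.Agent.Q331.SPL.wsum_le' (S := X.toFinset) X [] (by simp) (fun y hy => List.mem_toFinset.2 hy)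
  rcases X with _ | ⟨x, X⟩
  · simp only [costSplay, Nat.cast_zero, List.toFinset_nil, Finset.card_empty, Real.logb_zero,
      mul_zero, add_zero]
    positivity
  · have hk : (1 : ℝ) ≤ ((x :: X).toFinset.card : ℝ) := by
      have : 0 < (x :: X).toFinset.card := Finset.card_pos.2 ⟨x, by simp⟩
      exact_mod_cast this
    have hL : (0 : ℝ) ≤ Real.logb 2 ((x :: X).toFinset.card : ℝ) := Real.logb_nonneg (by norm_num) hk
    have h2' : (touched T (x :: X) : ℝ) ≤ opt T (x :: X) := by exact_mod_cast h2
    have h3' : ((x :: X).length : ℝ) ≤ opt T (x :: X) := by exact_mod_cast h3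
    have h5 := mul_le_mul_of_nonneg_right h3' hL
    have h6 := mul_le_mul_of_nonneg_left h2'
      (show 0 ≤ 6 + 16 * Real.logb 2 ((x :: X).toFinset.card : ℝ) by linarith)
    nlinarith

end Pool.Agent.Results.MP_c42954_lc.DistinctKeys
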