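import Pool.Agent.Y578.Spl.Since

set_option autoImplicit false

/-!
# Splaying against executions with few unstable requests

`Tr`, `keys`, `IsBST`, `dep`, `splay`, `costSplay` are those of `Pool.Agent.H581R2.SplayDef`;
`RotN e T T'` (`Pool.Agent.TH49.Spl.Defs`): `T'` arises from `T` by `e` rotations.

In an execution `T 0, T 1, …` for the requests `x 0, …, x (m - 1)` (with `e i` rotations between the
requests `i` and `i + 1`), call the request `i` unstable (with respect to the natural number `A`) if
at some time since the last request of the key `x i` (since the start if there is none) its depth was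
more than `A * (1 + d)`, where `d` is its depth when it is requested.  Splaying costs at most
`(7 + 15 A)` times the cost of the execution, plus `15 n` for every unstable request (`n` the number
of keys).  The rotations of the execution may be arbitrary in number and place, and there is no
additive term.
-/

namespace Pool.Agent.Results.MP_c42954_lc.MaxDepth

open Pool.Agent.H581R2.Splay Pool.Agent.TH49.Spl Finset

theorem rot_keys1 {s : ℕ} {T T' : Tr} (h : Rot T T' s) : keys T' = keys T := by
  induction h with
  | right a b A B C => simp [keys]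
  | left a b A B C => simp [keys]
  | inl a L L' R s _ ih => simp [keys, ih]
  | inr a L R R' s _ ih => simp [keys, ih]

theorem rot_keys' {e : ℕ} {T T' : Tr} (h : RotN e T T') : keys T' = keys T := by
  induction h with
  | refl T => rfl
  | step e s T T' T'' h1 _ ih => rw [ih, rot_keys1 h1]

theorem dep_le (x : ℕ) (T : Tr) : dep x T ≤ (keys T).length := by
  induction T with
  | nil => simp [dep, keys]
  | node a l r ihl ihr =>
    simp only [dep, keys, List.length_append, List.length_cons]
    split_ifs <;> omega

theorem result (A : ℕ) (T : ℕ → Tr) (e x : ℕ → ℕ) (m : ℕ) (hb : IsBST (T 0))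
    (hR : ∀ i < m, RotN (e i) (T i) (T (i + 1))) (hx : ∀ i < m, x i ∈ keys (T 0)) :
    costSplay (T 0) ((List.range m).map x) ≤
      (7 + 15 * A) * ∑ i ∈ range m, (1 + e i + dep (x i) (T i)) +
        15 * (keys (T 0)).length *
          ((range m).filter fun i => ∃ s ≤ i, (∀ j < i, s ≤ j → x j ≠ x i) ∧
            A * (1 + dep (x i) (T i)) < dep (x i) (T s)).card := by
  have h1 : ∀ (T : ℕ → Tr) (x : ℕ → ℕ) (m : ℕ), IsBST (T 0) → (∀ s, keys (T s) = keys (T 0)) →
      (∀ i < m, x i ∈ keys (T 0)) →
      costSplay (T 0) ((List.range m).map x) ≤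
        ∑ i ∈ range m, (7 + 15 *
          ((range (i + 1)).filter fun s => ∀ j < i, s ≤ j → x j ≠ x i).sup
            fun s => dep (x i) (T s)) := by
    intro T x m hb hk hx
    exact Pool.Agent.Y578.Spl.cost_since hb hk hx
  have hk : ∀ s ≤ m, keys (T s) = keys (T 0) := by
    intro s
    induction s with
    | zero => intro _; rfl
    | succ s ih => intro hs; rw [rot_keys' (hR s (by omega)), ih (by omega)]
  have h2 := h1 (fun s => T (min s m)) x m (by simpa using hb) (fun s => by
    rw [hk _ (min_le_right s m)]
    simp) (fun i hi => by simpa using hx i hi)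
  simp only [Nat.zero_min] at h2
  refine h2.trans ?_
  rw [mul_sum, card_filter, mul_sum, ← sum_add_distrib]
  refine sum_le_sum fun i hi => ?_
  rw [mem_range] at hi
  by_cases hu : ∃ s ≤ i, (∀ j < i, s ≤ j → x j ≠ x i) ∧
      A * (1 + dep (x i) (T i)) < dep (x i) (T s)
  · rw [if_pos hu, mul_one]
    have h3 : (((range (i + 1)).filter fun s => ∀ j < i, s ≤ j → x j ≠ x i).sup
        fun s => dep (x i) (T (min s m))) ≤ (keys (T 0)).length := by
      refine Finset.sup_le fun s _ => ?_
      rw [← hk (min s m) (min_le_right s m)]
      exact dep_le _ _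
    nlinarith [Nat.zero_le (e i), Nat.zero_le (A * e i), Nat.zero_le (dep (x i) (T i)),
      Nat.zero_le (A * dep (x i) (T i)), Nat.zero_le A]
  · rw [if_neg hu]
    push Not at hu
    have h3 : (((range (i + 1)).filter fun s => ∀ j < i, s ≤ j → x j ≠ x i).sup
        fun s => dep (x i) (T (min s m))) ≤ A * (1 + dep (x i) (T i)) := by
      refine Finset.sup_le fun s hs => ?_
      rw [mem_filter, mem_range] at hs
      rw [min_eq_left (by omega)]
      exact hu s (by omega) hs.2
    nlinarith [Nat.zero_le (e i), Nat.zero_le (A * e i)]

end Pool.Agent.Results.MP_c42954_lc.MaxDepth
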