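import Pool.Agent.Y395.SP.Asm

set_option autoImplicit false

/-!
# Dynamic optimality in terms of rotations at the root and at the right child of the root

`Tr`, `keys`, `IsBST`, `dep`, `splay`, `costSplay` are those of `Pool.Agent.H581R2.SplayDef`. `Exec T X c`
(`Pool.Agent.TH49.Spl.Defs`): there is an execution of cost `c` for the requests `X` with initial tree
`T`; a request costs one plus the depth of the key, a rotation anywhere costs one.

`Root T X c`: an execution which touches only the top of the tree. Each of its `c` steps is one of the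
following: a rotation at the root (in one of the two directions), a rotation at the right child of the root
(in one of the two directions), or the service of the next request, whose key has to be at the root.
The four rotations are the action of the standard generators `x₀, x₁` of Thompson's group `F` and of their
inverses on finite trees, so `c - m` is the length of a word in these generators.

(1) For every search tree `T` and all requests `X` of keys of `T`: every execution of cost `c` can be
replaced by one of this form with at most `7 c` steps, and conversely an execution of this form with `c`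
steps gives an execution of cost at most `2 c`. So OPT is, up to a constant factor, the least length of a
word in the generators of Thompson's group which brings the requested keys to the root one after the other.

(2) Hence dynamic optimality of splay trees (Q1) is equivalent to: splaying costs at most a constant times
the number of steps of every execution of this form.

The proof postpones the rotations of an arbitrary execution until they meet a search path (this is
`Pool.Agent.Y395.SP.sim_holds` of the starting files), and transforms the rearranged top parts through the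
left path.
-/

namespace Pool.Agent.Results.MP_c42954_lc.RootExecutions

open Pool.Agent.H581R2.Splay Pool.Agent.TH49.Spl Pool.Agent.Y395.SP

/-- `Root T X c`: there is an execution with `c` steps for the requests `X` with initial tree `T`, each step
of which is the service of a request found at the root, a rotation at the root, or a rotation at the right
child of the root (up or down). -/
inductive Root : Tr → List ℕ → ℕ → Prop
  | nil (T : Tr) : Root T [] 0
  | get (x : ℕ) (l r : Tr) (X : List ℕ) (c : ℕ) :
      Root (Tr.node x l r) X c → Root (Tr.node x l r) (x :: X) (c + 1)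
  | rootRight (a b : ℕ) (A B C : Tr) (X : List ℕ) (c : ℕ) :
      Root (Tr.node a A (Tr.node b B C)) X c → Root (Tr.node b (Tr.node a A B) C) X (c + 1)
  | rootLeft (a b : ℕ) (A B C : Tr) (X : List ℕ) (c : ℕ) :
      Root (Tr.node b (Tr.node a A B) C) X c → Root (Tr.node a A (Tr.node b B C)) X (c + 1)
  | childRight (r a b : ℕ) (L A B C : Tr) (X : List ℕ) (c : ℕ) :
      Root (Tr.node r L (Tr.node a A (Tr.node b B C))) X c →
      Root (Tr.node r L (Tr.node b (Tr.node a A B) C)) X (c + 1)
  | childLeft (r a b : ℕ) (L A B C : Tr) (X : List ℕ) (c : ℕ) :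
      Root (Tr.node r L (Tr.node b (Tr.node a A B) C)) X c →
      Root (Tr.node r L (Tr.node a A (Tr.node b B C))) X (c + 1)

/-- one move -/
inductive Mv : Tr → Tr → Prop
  | r0 (a b : ℕ) (A B C : Tr) : Mv (Tr.node b (Tr.node a A B) C) (Tr.node a A (Tr.node b B C))
  | i0 (a b : ℕ) (A B C : Tr) : Mv (Tr.node a A (Tr.node b B C)) (Tr.node b (Tr.node a A B) C)
  | r1 (r a b : ℕ) (L A B C : Tr) :
      Mv (Tr.node r L (Tr.node b (Tr.node a A B) C)) (Tr.node r L (Tr.node a A (Tr.node b B C)))
  | i1 (r a b : ℕ) (L A B C : Tr) :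
      Mv (Tr.node r L (Tr.node a A (Tr.node b B C))) (Tr.node r L (Tr.node b (Tr.node a A B) C))

inductive MvN : ℕ → Tr → Tr → Prop
  | refl (t : Tr) : MvN 0 t t
  | step (k : ℕ) (t t' t'' : Tr) : Mv t t' → MvN k t' t'' → MvN (k + 1) t t''

theorem Mv.symm {t t' : Tr} (h : Mv t t') : Mv t' t := by
  cases h with
  | r0 a b A B C => exact Mv.i0 a b A B C
  | i0 a b A B C => exact Mv.r0 a b A B C
  | r1 r a b L A B C => exact Mv.i1 r a b L A B C
  | i1 r a b L A B C => exact Mv.r1 r a b L A B C

theorem MvN.trans {k l : ℕ} {t t' t'' : Tr} (h : MvN k t t') (h' : MvN l t' t'') :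
    MvN (k + l) t t'' := by
  induction h with
  | refl t => simpa using h'
  | step k t t1 t2 h1 _ ih =>
    have := MvN.step _ _ _ _ h1 (ih h')
    rw [show k + 1 + l = k + l + 1 by omega]
    exact this

theorem MvN.symm {k : ℕ} {t t' : Tr} (h : MvN k t t') : MvN k t' t := by
  induction h with
  | refl t => exact MvN.refl t
  | step k t t1 t2 h1 _ ih =>
    exact ih.trans (MvN.step 0 _ _ _ h1.symm (MvN.refl _))

theorem root_mv {t t' : Tr} {X : List ℕ} {c : ℕ} (h : Mv t t') (h' : Root t' X c) :
    Root t X (c + 1) := by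
  cases h with
  | r0 a b A B C => exact Root.rootRight a b A B C X c h'
  | i0 a b A B C => exact Root.rootLeft a b A B C X c h'
  | r1 r a b L A B C => exact Root.childRight r a b L A B C X c h'
  | i1 r a b L A B C => exact Root.childLeft r a b L A B C X c h'

theorem root_mvN {k : ℕ} {t t' : Tr} {X : List ℕ} {c : ℕ} (h : MvN k t t') (h' : Root t' X c) :
    Root t X (c + k) := by
  induction h with
  | refl t => simpa using h'
  | step k t t1 t2 h1 _ ih =>
    have := root_mv h1 (ih h')
    rw [show c + (k + 1) = c + k + 1 by omega]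
    exact this

/-- the leftmost hole -/
def hd : Ctx → Tr
  | .hole t => t
  | .node _ l _ => hd l

/-- what follows the leftmost hole -/
def tl : Ctx → List (Tr ⊕ ℕ)
  | .hole _ => []
  | .node a l r => tl l ++ Sum.inr a :: fl r

theorem fl_eq : ∀ C : Ctx, fl C = Sum.inl (hd C) :: tl C
  | .hole t => rfl
  | .node a l r => by simp only [fl, tl, hd, fl_eq l, List.cons_append]

/-- the left path -/
def G : Tr → List (Tr ⊕ ℕ) → Tr
  | A, Sum.inr k :: Sum.inl t :: L => G (Tr.node k A t) L
  | A, _ => A

def nfC : Ctx → ℕ
  | .hole _ => 0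
  | .node _ l r => 2 * msize l + 1 + nfC r

theorem nfC_le : ∀ C : Ctx, nfC C ≤ 2 * msize C
  | .hole t => by simp [nfC]
  | .node a l r => by
    have := nfC_le r
    simp only [nfC, msize]
    omega

theorem flatC : ∀ (n : ℕ) (D : Ctx), nfC D = n → ∀ (r : ℕ) (A : Tr) (x : ℕ),
    (x = r ∨ Sum.inr x ∈ fl D) → ∃ (m₁ m₂ : ℕ) (l' r' : Tr), m₁ + m₂ = n ∧
      MvN m₁ (Tr.node r A (erase D)) (Tr.node x l' r') ∧
      MvN m₂ (Tr.node x l' r') (G (Tr.node r A (hd D)) (tl D)) := by
  intro n
  induction n with
  | zero =>
    intro D hD r A x hx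
    cases D with
    | hole t =>
      rcases hx with rfl | hx
      · refine ⟨0, 0, A, t, rfl, MvN.refl _, ?_⟩
        simp only [hd, tl, G]
        exact MvN.refl _
      · simp [fl] at hx
    | node c L E => simp [nfC] at hD
  | succ n ih =>
    intro D hD r A x hx
    cases D with
    | hole t => simp [nfC] at hD
    | node c L E =>
      cases L with
      | hole t =>
        simp only [nfC, msize] at hD
        have hn : nfC E = n := by omega
        have hG : G (Tr.node r A (hd (Ctx.node c (Ctx.hole t) E))) (tl (Ctx.node c (Ctx.hole t) E)) =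
            G (Tr.node c (Tr.node r A t) (hd E)) (tl E) := by
          simp only [hd, tl, fl_eq E, List.nil_append, G]
        have hmv : Mv (Tr.node r A (erase (Ctx.node c (Ctx.hole t) E)))
            (Tr.node c (Tr.node r A t) (erase E)) := by
          simp only [erase]
          exact Mv.i0 r c A t (erase E)
        rw [hG]
        rcases hx with rfl | hx
        · obtain ⟨m₁, m₂, l', r', e1, e2, e3⟩ := ih E hn c (Tr.node x A t) c (Or.inl rfl)
          refine ⟨0, n + 1, A, _, by omega, MvN.refl _, ?_⟩
          have := MvN.step _ _ _ _ hmv (e2.trans e3)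
          rw [e1] at this
          exact this
        · have hx' : x = c ∨ Sum.inr x ∈ fl E := by
            simp only [fl, List.mem_append, List.mem_cons, List.not_mem_nil, or_false] at hx
            rcases hx with hx | hx | hx
            · simp at hx
            · left; simpa using hx
            · right; exact hx
          obtain ⟨m₁, m₂, l', r', e1, e2, e3⟩ := ih E hn c (Tr.node r A t) x hx'
          exact ⟨m₁ + 1, m₂, l', r', by omega, MvN.step _ _ _ _ hmv e2, e3⟩
      | node b B C =>
        simp only [nfC, msize] at hD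
        have hn : nfC (Ctx.node b B (Ctx.node c C E)) = n := by simp only [nfC]; omega
        have h1 : hd (Ctx.node c (Ctx.node b B C) E) = hd (Ctx.node b B (Ctx.node c C E)) := rfl
        have h2 : tl (Ctx.node c (Ctx.node b B C) E) = tl (Ctx.node b B (Ctx.node c C E)) := by
          simp [tl, fl]
        have h3 : fl (Ctx.node c (Ctx.node b B C) E) = fl (Ctx.node b B (Ctx.node c C E)) := by
          simp [fl]
        have hmv : Mv (Tr.node r A (erase (Ctx.node c (Ctx.node b B C) E)))
            (Tr.node r A (erase (Ctx.node b B (Ctx.node c C E)))) := by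
          simp only [erase]
          exact Mv.r1 r b c A (erase B) (erase C) (erase E)
        rw [h3] at hx
        rw [h1, h2]
        rcases hx with rfl | hx
        · obtain ⟨m₁, m₂, l', r', e1, e2, e3⟩ := ih _ hn x A x (Or.inl rfl)
          refine ⟨0, n + 1, A, _, by omega, MvN.refl _, ?_⟩
          have := MvN.step _ _ _ _ hmv (e2.trans e3)
          rw [e1] at this
          exact this
        · obtain ⟨m₁, m₂, l', r', e1, e2, e3⟩ := ih _ hn r A x (Or.inr hx)
          exact ⟨m₁ + 1, m₂, l', r', by omega, MvN.step _ _ _ _ hmv e2, e3⟩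

theorem initC : ∀ (L : Ctx) (a : ℕ) (R : Ctx), ∃ k ≤ msize L, ∃ (a' : ℕ) (t' : Tr) (R' : Ctx),
    MvN k (erase (Ctx.node a L R)) (Tr.node a' t' (erase R')) ∧
      fl (Ctx.node a L R) = Sum.inl t' :: Sum.inr a' :: fl R' ∧
      msize R' + 1 = msize (Ctx.node a L R) := by
  intro L
  induction L with
  | hole t =>
    intro a R
    refine ⟨0, le_rfl, a, t, R, MvN.refl _, by simp [fl], by simp only [msize]; omega⟩
  | node b A B ihA _ =>
    intro a R
    obtain ⟨k, hk, a', t', R', h1, h2, h3⟩ := ihA b (Ctx.node a B R)
    refine ⟨k + 1, by simp only [msize]; omega, a', t', R', ?_, ?_, ?_⟩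
    · refine MvN.step _ _ _ _ ?_ h1
      simp only [erase]
      exact Mv.r0 b a (erase A) (erase B) (erase R)
    · rw [← h2]; simp [fl]
    · rw [h3]; simp only [msize]; omega

theorem canonC (C : Ctx) (x : ℕ) (hx : Sum.inr x ∈ fl C) : ∃ (m₁ m₂ : ℕ) (l r : Tr),
    m₁ + m₂ ≤ 3 * msize C ∧ MvN m₁ (erase C) (Tr.node x l r) ∧
      MvN m₂ (Tr.node x l r) (G (hd C) (tl C)) := by
  cases C with
  | hole t => simp [fl] at hx
  | node a L R =>
    obtain ⟨k, hk, a', t', R', h1, h2, h3⟩ := initC L a R
    have hx' : x = a' ∨ Sum.inr x ∈ fl R' := by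
      rw [h2] at hx
      simpa using hx
    obtain ⟨m₁, m₂, l', r', e1, e2, e3⟩ := flatC _ R' rfl a' t' x hx'
    have h4 := fl_eq (Ctx.node a L R)
    rw [h2, fl_eq R'] at h4
    injection h4 with h5 h6
    injection h5 with h5
    have hG : G (hd (Ctx.node a L R)) (tl (Ctx.node a L R)) = G (Tr.node a' t' (hd R')) (tl R') := by
      rw [← h5, ← h6]
      simp only [G]
    have hn := nfC_le R'
    refine ⟨k + m₁, m₂, l', r', ?_, h1.trans e2, ?_⟩
    · simp only [msize] at h3 ⊢
      omega
    · rw [hG]; exact e3

theorem msize_fl {C C' : Ctx} (h : fl C = fl C') : msize C = msize C' := by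
  have key : ∀ D : Ctx, (fl D).length = 2 * msize D + 1 := by
    intro D
    induction D with
    | hole t => simp [fl, msize]
    | node a l r ihl ihr =>
      simp only [fl, msize, List.length_append, List.length_cons, ihl, ihr]
      omega
  have h1 := key C
  have h2 := key C'
  rw [h] at h1
  omega

theorem lazy_root {K : Tr} {X : List ℕ} {w : ℕ} (h : Lazy K X w) : ∃ c ≤ 7 * w, Root K X c := by
  induction h with
  | nil K => exact ⟨0, by omega, Root.nil K⟩
  | cons C C' x X q w hf hq hx _ ih =>
    obtain ⟨c, hc, hr⟩ := ih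
    obtain ⟨m₁, m₂, l, r, e1, e2, e3⟩ := canonC C x hx
    have hx' : Sum.inr x ∈ fl C' := by rw [← hf]; exact hx
    obtain ⟨n₁, n₂, l', r', f1, f2, f3⟩ := canonC C' x hx'
    have hs := msize_fl hf
    have hG : G (hd C) (tl C) = G (hd C') (tl C') := by
      have h4 := hf
      rw [fl_eq C, fl_eq C'] at h4
      injection h4 with h5 h6
      injection h5 with h5
      rw [h5, h6]
    have hback : MvN (n₁ + n₂) (G (hd C) (tl C)) (erase C') := by
      rw [hG]
      exact (f2.trans f3).symm
    have h1 := root_mvN (e3.trans hback) hr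
    have h2 := Root.get x l r X _ h1
    have h3 := root_mvN e2 h2
    have hq1 : 1 ≤ msize C := by
      cases C with
      | hole t => simp [fl] at hx
      | node a L R => simp only [msize]; omega
    exact ⟨_, by omega, h3⟩

theorem rot_keys {T T' : Tr} {s : ℕ} (h : Rot T T' s) : keys T' = keys T := by
  induction h with
  | right a b A B C => simp [keys]
  | left a b A B C => simp [keys]
  | inl a L L' R s _ ih => simp only [keys, ih]
  | inr a L R R' s _ ih => simp only [keys, ih]

theorem rotN_keys {e : ℕ} {T T' : Tr} (h : RotN e T T') : keys T' = keys T := by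
  induction h with
  | refl T => rfl
  | step e s T T' T'' hr _ ih => rw [ih, rot_keys hr]

theorem dep_rot {T T' : Tr} {s : ℕ} (x : ℕ) (h : Rot T T' s) : IsBST T → dep x T ≤ dep x T' + 1 := by
  induction h with
  | right a b A B C =>
    intro hb
    have hba : b < a := by
      simp only [IsBST, keys] at hb
      rw [List.pairwise_append] at hb
      exact hb.2.2 b (by simp) a (by simp)
    simp only [dep]
    split_ifs <;> omega
  | left a b A B C =>
    intro hb
    have hba : b < a := by
      simp only [IsBST, keys] at hb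
      rw [List.pairwise_append, List.pairwise_cons] at hb
      exact hb.2.1.1 a (by simp)
    simp only [dep]
    split_ifs <;> omega
  | inl a L L' R s _ ih =>
    intro hb
    simp only [IsBST, keys] at hb
    rw [List.pairwise_append] at hb
    have := ih hb.1
    simp only [dep]
    split_ifs <;> omega
  | inr a L R R' s _ ih =>
    intro hb
    simp only [IsBST, keys] at hb
    rw [List.pairwise_append, List.pairwise_cons] at hb
    have := ih hb.2.1.2
    simp only [dep]
    split_ifs <;> omega

theorem dep_rotN {T T' : Tr} {e : ℕ} (x : ℕ) (h : RotN e T T') : IsBST T → dep x T ≤ dep x T' + e := by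
  induction h with
  | refl T => intro _; omega
  | step e s T T' T'' hr _ ih =>
    intro hb
    have h1 := dep_rot x hr hb
    have h2 := ih (by unfold IsBST; rw [rot_keys hr]; exact hb)
    omega

theorem rotN_snoc {e s : ℕ} {T T' T'' : Tr} (h : RotN e T T') (h' : Rot T' T'' s) :
    RotN (e + 1) T T'' := by
  induction h with
  | refl T => exact RotN.step 0 s _ _ _ h' (RotN.refl _)
  | step e s' T T1 T2 hr _ ih => exact RotN.step _ s' _ _ _ hr (ih h')

theorem root_exec {T : Tr} {X : List ℕ} {c : ℕ} (h : Root T X c) : ∀ (T₀ : Tr) (e : ℕ),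
    IsBST T₀ → RotN e T₀ T → ∃ c' ≤ 2 * (c + e), Exec T₀ X c' := by
  induction h with
  | nil T => intro T₀ e _ _; exact ⟨0, by omega, Exec.nil T₀⟩
  | get x l r X c _ ih =>
    intro T₀ e hb hr
    have hb' : IsBST (Tr.node x l r) := by unfold IsBST; rw [rotN_keys hr]; exact hb
    obtain ⟨c', hc', h'⟩ := ih (Tr.node x l r) 0 hb' (RotN.refl _)
    have hd := dep_rotN x hr hb
    have h0 : dep x (Tr.node x l r) = 0 := by simp [dep]
    exact ⟨_, by omega, Exec.cons T₀ _ x X e c' hr h'⟩
  | rootRight a b A B C X c _ ih =>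
    intro T₀ e hb hr
    obtain ⟨c', hc', h'⟩ := ih T₀ (e + 1) hb (rotN_snoc hr (Rot.right b a A B C))
    exact ⟨c', by omega, h'⟩
  | rootLeft a b A B C X c _ ih =>
    intro T₀ e hb hr
    obtain ⟨c', hc', h'⟩ := ih T₀ (e + 1) hb (rotN_snoc hr (Rot.left b a A B C))
    exact ⟨c', by omega, h'⟩
  | childRight r a b L A B C X c _ ih =>
    intro T₀ e hb hr
    obtain ⟨c', hc', h'⟩ := ih T₀ (e + 1) hb
      (rotN_snoc hr (Rot.inr r L _ _ _ (Rot.right b a A B C)))
    exact ⟨c', by omega, h'⟩
  | childLeft r a b L A B C X c _ ih =>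
    intro T₀ e hb hr
    obtain ⟨c', hc', h'⟩ := ih T₀ (e + 1) hb
      (rotN_snoc hr (Rot.inr r L _ _ _ (Rot.left b a A B C)))
    exact ⟨c', by omega, h'⟩

theorem result :
    (∀ (T : Tr) (X : List ℕ), IsBST T → (∀ x ∈ X, x ∈ keys T) →
      (∀ c, Exec T X c → ∃ c' ≤ 7 * c, Root T X c') ∧
      (∀ c, Root T X c → ∃ c' ≤ 2 * c, Exec T X c')) ∧
    ((∃ C : ℕ, ∀ (T : Tr) (X : List ℕ), IsBST T → (∀ x ∈ X, x ∈ keys T) →
        ∀ c, Exec T X c → costSplay T X ≤ C * c) ↔
      ∃ C : ℕ, ∀ (T : Tr) (X : List ℕ), IsBST T → (∀ x ∈ X, x ∈ keys T) →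
        ∀ c, Root T X c → costSplay T X ≤ C * c) := by
  have h1 : ∀ (T : Tr) (X : List ℕ), IsBST T → (∀ x ∈ X, x ∈ keys T) →
      ∀ c, Exec T X c → ∃ c' ≤ 7 * c, Root T X c' := by
    intro T X hb hX c hc
    obtain ⟨w, hw, hl⟩ := sim_holds X 0 c T T hb (RotN.refl T) hc hX
    obtain ⟨c', hc', h'⟩ := lazy_root hl
    exact ⟨c', by omega, h'⟩
  have h2 : ∀ (T : Tr) (X : List ℕ), IsBST T → (∀ x ∈ X, x ∈ keys T) →
      ∀ c, Root T X c → ∃ c' ≤ 2 * c, Exec T X c' := by
    intro T X hb _ c hc
    obtain ⟨c', hc', h'⟩ := root_exec hc T 0 hb (RotN.refl T)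
    exact ⟨c', by omega, h'⟩
  refine ⟨fun T X hb hX => ⟨h1 T X hb hX, h2 T X hb hX⟩, ?_, ?_⟩
  · rintro ⟨C, hC⟩
    refine ⟨2 * C, fun T X hb hX c hc => ?_⟩
    obtain ⟨c', hc', h'⟩ := h2 T X hb hX c hc
    calc costSplay T X ≤ C * c' := hC T X hb hX c' h'
      _ ≤ C * (2 * c) := Nat.mul_le_mul_left C hc'
      _ = 2 * C * c := by ring
  · rintro ⟨C, hC⟩
    refine ⟨7 * C, fun T X hb hX c hc => ?_⟩
    obtain ⟨c', hc', h'⟩ := h1 T X hb hX c hc
    calc costSplay T X ≤ C * c' := hC T X hb hX c' h'
      _ ≤ C * (7 * c) := Nat.mul_le_mul_left C hc'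
      _ = 7 * C * c := by ring

end Pool.Agent.Results.MP_c42954_lc.RootExecutions
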